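import Pool.Agent.V11196.TP.Points

/-!
# The convex body and the iteration
-/

namespace Pool.Agent.V11196.TP

open Filter Topology Set Metric Pointwise

/-- centres -/
noncomputable def Q (k : Fin 6) : Plane := P k + (1 / 4 : ℝ) • m k

/-- radius -/
noncomputable def rho : ℝ := √26 / 4

/-- The body. -/
noncomputable def body : Set Plane := convexHull ℝ (range Q) + closedBall (0 : Plane) rho

theorem sq26_pos : 0 < √(26 : ℝ) := Real.sqrt_pos.2 (by norm_num)

theorem sq26_lt : √(26 : ℝ) < 52 / 10 := by
  rw [Real.sqrt_lt' (by norm_num)]; norm_num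

theorem rho_pos : 0 < rho := by unfold rho; linarith [sq26_pos]

theorem rho_lt : 4 * rho < 52 / 10 := by unfold rho; linarith [sq26_lt]

theorem norm_Q_sub (k : Fin 6) : ‖Q k - P k‖ ≤ rho := by
  unfold Q
  rw [add_sub_cancel_left, norm_smul, norm_m]
  unfold rho
  rw [Real.norm_of_nonneg (by norm_num)]
  linarith

theorem six_cases :
    ∀ j k : Fin 6, j = k ∨ j = k + 1 ∨ j = k + 2 ∨ j = k + 3 ∨ j = k + 4 ∨ j = k + 5 := by
  decide

theorem body_ellipse (k : Fin 6) :
    ∀ x ∈ body, dist x (P (k + 1)) + dist x (P k) ≤ c (k + 1) + 26 * s := by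
  have hs1 := s_gt
  have hs2 := s_lt
  have hr := rho_lt
  have hr0 := rho_pos
  intro x hx
  refine body_subset Q rho {x : Plane | dist x (P (k + 1)) + dist x (P k) ≤ c (k + 1) + 26 * s}
    (convex_ellipse _ _ _) ?_ hx
  intro j x hx
  show dist x (P (k + 1)) + dist x (P k) ≤ c (k + 1) + 26 * s
  have hs26 : s / 78 * (26 * s) = 1 := by have := s_sq; nlinarith
  have hj : j = k ∨ j = k + 1 ∨ j = k + 2 ∨ j = k + 3 ∨ j = k + 4 ∨ j = k + 5 := six_cases j k
  have hx' : ∀ i : Fin 6, ‖x - Q i‖ ≤ rho → ‖x - (P i + (1 / 4 : ℝ) • m i)‖ ≤ 1 / 4 * ‖m i‖ := by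
    intro i hi
    rw [norm_m]
    have : rho = 1 / 4 * √26 := by unfold rho; ring
    rw [← this]; exact hi
  rcases hj with rfl | rfl | rfl | rfl | rfl | rfl
  · refine gap_ball _ _ (P j) (Q j) x _ rho (norm_Q_sub _) hx ?_
    rw [dist1, dist_self]
    have := c_le j
    linarith
  · refine gap_ball _ _ (P (k + 1)) (Q (k + 1)) x _ rho (norm_Q_sub _) hx ?_
    rw [dist_self, dist_comm, dist1]
    have := c_le k
    linarith
  · refine tangent_ball (P (k + 1)) (P k) (P (k + 2)) (m (k + 2)) x (c (k + 1)) (26 * s)
      (ci (k + 1)) (s / 78) (lam (k + 1)) (1 / 4) (by linarith [c_pos (k + 1)]) (by linarith)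
      ?_ ?_ (ci_mul _) hs26 (tan1 k) (by norm_num) ?_ (hx' _ hx)
    · rw [← dist_eq_norm]
      have := dist1 (k + 1)
      rw [add_assoc] at this
      exact this
    · rw [← dist_eq_norm]; exact dist2 k
    · have := ci_lt (k + 1)
      have := lam_gt (k + 1)
      linarith
  · refine gap_ball _ _ (P (k + 3)) (Q (k + 3)) x _ rho (norm_Q_sub _) hx ?_
    have h1 : dist (P (k + 3)) (P (k + 1)) = 26 * s := by
      rw [dist_comm]
      have := dist2 (k + 1)
      rw [add_assoc] at this
      exact this
    have h2 : dist (P (k + 3)) (P k) = 20 := by rw [dist_comm]; exact dist3 k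
    rw [h1, h2]
    have := c_pos (k + 1)
    linarith
  · refine gap_ball _ _ (P (k + 4)) (Q (k + 4)) x _ rho (norm_Q_sub _) hx ?_
    have h1 : dist (P (k + 4)) (P (k + 1)) = 20 := by
      rw [dist_comm]
      have := dist3 (k + 1)
      rw [add_assoc] at this
      exact this
    have h2 : dist (P (k + 4)) (P k) = 26 * s := by
      have := dist2 (k + 4)
      rw [add_assoc] at this
      have e : k + (4 + 2) = k := by
        have : (4 + 2 : Fin 6) = 0 := by decide
        rw [this, add_zero]
      rw [e] at this
      exact this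
    rw [h1, h2]
    have := c_pos (k + 1)
    linarith
  · have h := tangent_ball (P k) (P (k + 1)) (P (k + 5)) (m (k + 5)) x (c (k + 5)) (26 * s)
      (ci (k + 5)) (s / 78) (lam (k + 5)) (1 / 4) (by linarith [c_pos (k + 5)]) (by linarith)
      ?_ ?_ (ci_mul _) hs26 (tan2 k) (by norm_num) ?_ (hx' _ hx)
    · rw [c_even] at h; linarith
    · rw [← dist_eq_norm, dist_comm]
      have := dist1 (k + 5)
      rw [add_assoc] at this
      have e : k + (5 + 1) = k := by
        have : (5 + 1 : Fin 6) = 0 := by decide
        rw [this, add_zero]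
      rw [e] at this
      exact this
    · rw [← dist_eq_norm, dist_comm]
      have := dist2 (k + 5)
      rw [add_assoc] at this
      have e : k + (5 + 2) = k + 1 := by
        have : (5 + 2 : Fin 6) = 1 := by decide
        rw [this]
      rw [e] at this
      exact this
    · have := ci_lt (k + 5)
      have := lam_gt (k + 5)
      linarith

theorem body_compact : IsCompact body :=
  ((finite_range Q).isCompact_convexHull ℝ).add (isCompact_closedBall _ _)

theorem body_convex : Convex ℝ body := (convex_convexHull ℝ _).add (convex_closedBall _ _)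

theorem body_interior : (interior body).Nonempty := by
  refine ⟨Q 0, ?_⟩
  rw [mem_interior]
  refine ⟨ball (Q 0) rho, ?_, isOpen_ball, mem_ball_self rho_pos⟩
  intro x hx
  refine ⟨Q 0, subset_convexHull ℝ _ (mem_range_self 0), x - Q 0, ?_, by simp⟩
  rw [mem_closedBall_zero_iff, ← dist_eq_norm]
  exact (mem_ball.1 hx).le

theorem P_mem_body (k : Fin 6) : P k ∈ body := by
  refine ⟨Q k, subset_convexHull ℝ _ (mem_range_self k), P k - Q k, ?_, by simp⟩
  rw [mem_closedBall_zero_iff, norm_sub_rev]
  exact norm_Q_sub k

theorem sum_at (k : Fin 6) :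
    dist (P (k + 2)) (P (k + 1)) + dist (P (k + 2)) (P k) = c (k + 1) + 26 * s := by
  have h1 : dist (P (k + 2)) (P (k + 1)) = c (k + 1) := by
    rw [dist_comm]
    have := dist1 (k + 1)
    rw [add_assoc] at this
    exact this
  have h2 : dist (P (k + 2)) (P k) = 26 * s := by
    rw [dist_comm]; exact dist2 k
  rw [h1, h2]

theorem P_not_interior (k : Fin 6) : P k ∉ interior body := by
  have e : k = (k + 4) + 2 := by revert k; decide
  rw [e]
  refine not_interior body (P (k + 4 + 1)) (P (k + 4)) _ (c (k + 4 + 1) + 26 * s) ?_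
    (body_ellipse (k + 4)) (sum_at (k + 4)) ?_
  · intro h
    have h2 := sum_at (k + 4)
    rw [h, dist_self] at h2
    have h3 := dist2 (k + 4)
    rw [dist_comm, h3] at h2
    have := c_pos (k + 4 + 1)
    linarith
  · rw [dist_comm, dist1]
    have := c_le (k + 4)
    have := s_gt
    linarith

theorem P_mem_frontier (k : Fin 6) : P k ∈ frontier body :=
  ⟨subset_closure (P_mem_body k), P_not_interior k⟩

theorem frontier_sub : frontier body ⊆ body := body_compact.isClosed.frontier_subset

theorem key (k : Fin 6) (W : Plane) (hW : W ∈ frontier body) :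
    dist W (P (k + 1)) + dist W (P k) ≤
      dist (P (k + 2)) (P (k + 1)) + dist (P (k + 2)) (P k) := by
  rw [sum_at]
  exact body_ellipse k W (frontier_sub hW)

theorem curve_ok : IsDiffConvexCurve (frontier body) := by
  refine ⟨body, body_compact, body_convex, body_interior, rfl, ?_⟩
  intro x hx
  obtain ⟨u, hu, hu2⟩ := exists_support body body_convex body_interior x hx
  refine ⟨u, ⟨hu, hu2⟩, ?_⟩
  rintro v ⟨hv, hv2⟩
  exact unique_support (convexHull ℝ (range Q)) rho rho_pos x (frontier_sub hx) v u hv hu hv2 hu2

/-- Alternating sequences do not converge. -/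
theorem not_conv (A B : Plane) (h : A ≠ B) :
    ¬ Converges (fun i : ℕ => if Even i then A else B) := by
  rintro ⟨x, hx⟩
  have h1 : Tendsto (fun i : ℕ => 2 * i) atTop atTop :=
    tendsto_atTop_mono (fun i => by simp only [id]; omega) tendsto_id
  have h2 : Tendsto (fun i : ℕ => 2 * i + 1) atTop atTop :=
    tendsto_atTop_mono (fun i => by simp only [id]; omega) tendsto_id
  have e1 := hx.comp h1
  have e2 := hx.comp h2
  have f1 : ((fun i : ℕ => if Even i then A else B) ∘ fun i : ℕ => 2 * i) = fun _ => A := by
    funext i; simp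
  have f2 : ((fun i : ℕ => if Even i then A else B) ∘ fun i : ℕ => 2 * i + 1) = fun _ => B := by
    funext i; simp
  rw [f1] at e1
  rw [f2] at e2
  have g1 := tendsto_nhds_unique e1 tendsto_const_nhds
  have g2 := tendsto_nhds_unique e2 tendsto_const_nhds
  exact h (g1.symm.trans g2)

theorem P_ne3 (k : Fin 6) : P k ≠ P (k + 3) := by
  intro h
  have := dist3 k
  rw [← h, dist_self] at this
  norm_num at this

theorem start_indep : AffineIndependent ℝ ![P 0, P 5, P 4] := by
  rw [affineIndependent_iff_not_collinear_set]
  intro hcol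
  have d1 : dist (P 0) (P 5) = 24 * s + 10 := by
    rw [dist_comm]; exact dist1 5
  have d2 : dist (P 5) (P 4) = 24 * s - 10 := by
    rw [dist_comm]; exact dist1 4
  have d3 : dist (P 4) (P 0) = 26 * s := dist2 4
  have hs1 := s_gt
  have hs2 := s_lt
  rcases hcol.wbtw_or_wbtw_or_wbtw with h | h | h
  · have := h.dist_add_dist
    rw [dist_comm (P 0) (P 4)] at this
    linarith
  · have := h.dist_add_dist
    rw [dist_comm (P 5) (P 0)] at this
    linarith
  · have := h.dist_add_dist
    rw [dist_comm (P 4) (P 5)] at this
    linarith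

/-- The 6-periodic admissible sequence. -/
theorem iteration_ok : IsIteration (frontier body) (fun i => if Even i then P 0 else P 3)
    (fun i => if Even i then P 5 else P 2) (fun i => if Even i then P 4 else P 1) where
  start := by
    refine ⟨P_mem_frontier _, P_mem_frontier _, P_mem_frontier _, ?_⟩
    simpa using start_indep
  stepZ i := by
    rcases Nat.even_or_odd i with h | h
    · have h' : ¬ Even (i + 1) := by rw [Nat.even_add_one]; simpa using h
      simp only [h, h', if_true, if_false]
      refine ⟨P_mem_frontier _, fun W hW => ?_⟩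
      have := key 5 W hW
      have e1 : (5 + 1 : Fin 6) = 0 := by decide
      have e2 : (5 + 2 : Fin 6) = 1 := by decide
      rw [e1, e2] at this
      unfold perim
      rw [dist_comm (P 5) W, dist_comm (P 5) (P 1)]
      linarith
    · have h0 : ¬ Even i := by simpa using h
      have h' : Even (i + 1) := by rw [Nat.even_add_one]; exact h0
      simp only [h0, h', if_true, if_false]
      refine ⟨P_mem_frontier _, fun W hW => ?_⟩
      have := key 2 W hW
      have e1 : (2 + 1 : Fin 6) = 3 := by decide
      have e2 : (2 + 2 : Fin 6) = 4 := by decide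
      rw [e1, e2] at this
      unfold perim
      rw [dist_comm (P 2) W, dist_comm (P 2) (P 4)]
      linarith
  stepY i := by
    rcases Nat.even_or_odd i with h | h
    · have h' : ¬ Even (i + 1) := by rw [Nat.even_add_one]; simpa using h
      simp only [h, h', if_true, if_false]
      refine ⟨P_mem_frontier _, fun W hW => ?_⟩
      have := key 0 W hW
      have e1 : (0 + 1 : Fin 6) = 1 := by decide
      have e2 : (0 + 2 : Fin 6) = 2 := by decide
      rw [e1, e2] at this
      unfold perim
      rw [dist_comm (P 0) W, dist_comm (P 0) (P 2)]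
      linarith
    · have h0 : ¬ Even i := by simpa using h
      have h' : Even (i + 1) := by rw [Nat.even_add_one]; exact h0
      simp only [h0, h', if_true, if_false]
      refine ⟨P_mem_frontier _, fun W hW => ?_⟩
      have := key 3 W hW
      have e1 : (3 + 1 : Fin 6) = 4 := by decide
      have e2 : (3 + 2 : Fin 6) = 5 := by decide
      rw [e1, e2] at this
      unfold perim
      rw [dist_comm (P 3) W, dist_comm (P 3) (P 5)]
      linarith
  stepX i := by
    rcases Nat.even_or_odd i with h | h
    · have h' : ¬ Even (i + 1) := by rw [Nat.even_add_one]; simpa using h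
      simp only [h', if_false]
      refine ⟨P_mem_frontier _, fun W hW => ?_⟩
      have := key 1 W hW
      have e1 : (1 + 1 : Fin 6) = 2 := by decide
      have e2 : (1 + 2 : Fin 6) = 3 := by decide
      rw [e1, e2] at this
      unfold perim
      rw [dist_comm (P 1) W, dist_comm (P 1) (P 3)]
      linarith
    · have h0 : ¬ Even i := by simpa using h
      have h' : Even (i + 1) := by rw [Nat.even_add_one]; exact h0
      simp only [h', if_true]
      refine ⟨P_mem_frontier _, fun W hW => ?_⟩
      have := key 4 W hW
      have e1 : (4 + 1 : Fin 6) = 5 := by decide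
      have e2 : (4 + 2 : Fin 6) = 0 := by decide
      rw [e1, e2] at this
      unfold perim
      rw [dist_comm (P 4) W, dist_comm (P 4) (P 0)]
      linarith

end Pool.Agent.V11196.TP
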