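import Pool.Agent.V11196.TP.Defs

/-!
# Convex bodies `H + closedBall 0 ρ` and inner balls of ellipses
-/

namespace Pool.Agent.V11196.TP

open Filter Topology Set Metric Pointwise

variable {V : Type*} [NormedAddCommGroup V] [InnerProductSpace ℝ V]

/-- `‖w - v‖ ≤ a - ⟪v, w⟫ / a + ‖w‖² / (2 a)` for `‖v‖ = a`. -/
theorem norm_sub_le_quad (v w : V) (a : ℝ) (ha : 0 < a) (hv : ‖v‖ = a) :
    ‖w - v‖ ≤ a - inner ℝ v w / a + ‖w‖ ^ 2 / (2 * a) := by
  have h1 : ‖w - v‖ ^ 2 = ‖w‖ ^ 2 - 2 * inner ℝ v w + a ^ 2 := by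
    rw [@norm_sub_sq_real, real_inner_comm, hv]
  set s : ℝ := - inner ℝ v w / a + ‖w‖ ^ 2 / (2 * a) with hs
  have h2 : ‖w - v‖ ^ 2 = a ^ 2 + 2 * a * s := by
    rw [h1, hs]; field_simp; ring
  have h3 : 0 ≤ a + s := by
    have : 0 ≤ a ^ 2 + 2 * a * s := by rw [← h2]; positivity
    have h4 : 0 ≤ a * (a + 2 * s) := by nlinarith
    have h5 : 0 ≤ a + 2 * s := nonneg_of_mul_nonneg_right h4 ha
    linarith
  have h4 : ‖w - v‖ ≤ a + s := by
    have : ‖w - v‖ ^ 2 ≤ (a + s) ^ 2 := by rw [h2]; nlinarith [sq_nonneg s]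
    exact (pow_le_pow_iff_left₀ (norm_nonneg _) h3 two_ne_zero).1 this
  calc ‖w - v‖ ≤ a + s := h4
    _ = a - inner ℝ v w / a + ‖w‖ ^ 2 / (2 * a) := by rw [hs]; ring

/-- A ball internally tangent to an ellipse, of small radius, lies inside the ellipse. -/
theorem tangent_ball (A B P m x : V) (a b ia ib lam tau : ℝ)
    (ha : 0 < a) (hb : 0 < b) (hA : ‖A - P‖ = a) (hB : ‖B - P‖ = b)
    (hia : ia * a = 1) (hib : ib * b = 1)
    (hl : ia • (A - P) + ib • (B - P) = lam • m) (htau : 0 < tau)
    (hcond : tau * (ia + ib) ≤ lam) (hx : ‖x - (P + tau • m)‖ ≤ tau * ‖m‖) :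
    dist x A + dist x B ≤ a + b := by
  have hia' : ia = 1 / a := by field_simp; linarith
  have hib' : ib = 1 / b := by field_simp; linarith
  set w : V := x - P with hw
  have h1 : ‖w‖ ^ 2 ≤ 2 * tau * inner ℝ m w := by
    have e : x - (P + tau • m) = w - tau • m := by rw [hw]; abel
    rw [e] at hx
    have h2 : ‖w - tau • m‖ ^ 2 ≤ (tau * ‖m‖) ^ 2 :=
      pow_le_pow_left₀ (norm_nonneg _) hx 2
    rw [@norm_sub_sq_real, norm_smul, inner_smul_right, Real.norm_of_nonneg htau.le,
      real_inner_comm] at h2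
    nlinarith
  have hxA : dist x A ≤ a - inner ℝ (A - P) w / a + ‖w‖ ^ 2 / (2 * a) := by
    rw [dist_eq_norm]
    have e : x - A = w - (A - P) := by rw [hw]; abel
    rw [e]
    exact norm_sub_le_quad _ _ a ha hA
  have hxB : dist x B ≤ b - inner ℝ (B - P) w / b + ‖w‖ ^ 2 / (2 * b) := by
    rw [dist_eq_norm]
    have e : x - B = w - (B - P) := by rw [hw]; abel
    rw [e]
    exact norm_sub_le_quad _ _ b hb hB
  have h3 : inner ℝ (A - P) w / a + inner ℝ (B - P) w / b = lam * inner ℝ m w := by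
    have := congrArg (fun v => inner ℝ v w) hl
    simp only [inner_add_left, inner_smul_left] at this
    rw [hia', hib'] at this
    simp only [conj_trivial] at this
    rw [← this]; ring
  have hlam : 0 ≤ lam := by
    refine le_trans ?_ hcond
    have : 0 < ia + ib := by rw [hia', hib']; positivity
    positivity
  have h4 : ‖w‖ ^ 2 / (2 * a) + ‖w‖ ^ 2 / (2 * b) = ‖w‖ ^ 2 * (ia + ib) / 2 := by
    rw [hia', hib']; field_simp
  have h5 : ‖w‖ ^ 2 * (ia + ib) / 2 ≤ lam * inner ℝ m w := by
    have hs : 0 ≤ ia + ib := by rw [hia', hib']; positivity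
    have h6 : ‖w‖ ^ 2 * (ia + ib) ≤ 2 * tau * inner ℝ m w * (ia + ib) :=
      mul_le_mul_of_nonneg_right h1 hs
    have h7 : 0 ≤ inner ℝ m w := by
      have : 0 ≤ 2 * tau * inner ℝ m w := le_trans (by positivity) h1
      have h8 : 0 ≤ tau * inner ℝ m w := by linarith
      exact nonneg_of_mul_nonneg_right h8 htau
    have h9 : tau * (ia + ib) * inner ℝ m w ≤ lam * inner ℝ m w :=
      mul_le_mul_of_nonneg_right hcond h7
    nlinarith
  linarith

omit [InnerProductSpace ℝ V] in
/-- Points close to `P` stay in an ellipse containing `P` with a gap. -/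
theorem gap_ball (A B P Q x : V) (sig rho : ℝ) (hQ : ‖Q - P‖ ≤ rho) (hx : ‖x - Q‖ ≤ rho)
    (h : dist P A + dist P B + 4 * rho ≤ sig) : dist x A + dist x B ≤ sig := by
  have h1 : dist x P ≤ 2 * rho := by
    rw [dist_eq_norm]
    have e : x - P = (x - Q) + (Q - P) := by abel
    rw [e]
    exact (norm_add_le _ _).trans (by linarith)
  have h2 := dist_triangle x P A
  have h3 := dist_triangle x P B
  linarith

/-- The filled ellipse is convex. -/
theorem convex_ellipse (A B : V) (sig : ℝ) : Convex ℝ {x : V | dist x A + dist x B ≤ sig} := by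
  have h1 : ConvexOn ℝ univ (fun x : V => dist x A) := convexOn_univ_dist A
  have h2 : ConvexOn ℝ univ (fun x : V => dist x B) := convexOn_univ_dist B
  have := (h1.add h2).convex_le sig
  simpa using this

/-- The body `conv(Q) + closedBall 0 ρ` is inside any convex set containing the balls. -/
theorem body_subset {ι : Type*} (Q : ι → V) (rho : ℝ) (S : Set V) (hS : Convex ℝ S)
    (h : ∀ j, ∀ x, ‖x - Q j‖ ≤ rho → x ∈ S) :
    convexHull ℝ (range Q) + closedBall (0 : V) rho ⊆ S := by
  rintro x ⟨p, hp, w, hw, rfl⟩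
  rw [mem_closedBall_zero_iff] at hw
  have h1 : convexHull ℝ (range Q) ⊆ {p : V | p + w ∈ S} := by
    apply convexHull_min
    · rintro _ ⟨j, rfl⟩
      exact h j _ (by simpa using hw)
    · intro a ha b hb s t hs ht hst
      have := hS ha hb hs ht hst
      have e : s • (a + w) + t • (b + w) = s • a + t • b + w := by
        rw [smul_add, smul_add]
        have : s • w + t • w = w := by rw [← add_smul, hst, one_smul]
        calc s • a + s • w + (t • b + t • w) = s • a + t • b + (s • w + t • w) := by abel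
          _ = _ := by rw [this]
      rw [e] at this
      exact this
  exact h1 hp

/-- A supporting unit normal at a boundary point of a closed convex set with nonempty interior. -/
theorem exists_support [CompleteSpace V] (K : Set V) (hK : Convex ℝ K)
    (hint : (interior K).Nonempty) (x : V) (hx : x ∈ frontier K) :
    ∃ u : V, ‖u‖ = 1 ∧ ∀ y ∈ K, inner ℝ u y ≤ inner ℝ u x := by
  have hxi : x ∉ interior K := by
    intro h; exact hx.2 h
  obtain ⟨f, hf⟩ := geometric_hahn_banach_open_point hK.interior isOpen_interior hxi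
  have hf2 : ∀ y ∈ K, f y ≤ f x := by
    intro y hy
    have h1 : y ∈ closure (interior K) := by
      rw [hK.closure_interior_eq_closure_of_nonempty_interior hint]
      exact subset_closure hy
    have h2 : closure (interior K) ⊆ {z | f z ≤ f x} :=
      closure_minimal (fun z hz => (hf z hz).le) (isClosed_le f.continuous continuous_const)
    exact h2 h1
  obtain ⟨z, hz⟩ := hint
  set v : V := (InnerProductSpace.toDual ℝ V).symm f with hv
  have hfv : ∀ y, inner ℝ v y = f y := fun y => InnerProductSpace.toDual_symm_apply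
  have hv0 : v ≠ 0 := by
    intro h0
    have h1 := hf z hz
    rw [← hfv, ← hfv, h0] at h1
    simp at h1
  have hnv : 0 < ‖v‖ := norm_pos_iff.2 hv0
  refine ⟨(‖v‖⁻¹ : ℝ) • v, ?_, ?_⟩
  · rw [norm_smul, norm_inv, norm_norm, inv_mul_cancel₀ hnv.ne']
  · intro y hy
    rw [inner_smul_left, inner_smul_left, hfv, hfv]
    simp only [conj_trivial]
    exact mul_le_mul_of_nonneg_left (hf2 y hy) (by positivity)

/-- Uniqueness of the supporting normal for `H + closedBall 0 ρ`. -/
theorem unique_support (H : Set V) (rho : ℝ) (hr : 0 < rho) (x : V)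
    (hx : x ∈ H + closedBall (0 : V) rho) (u v : V) (hu : ‖u‖ = 1) (hv : ‖v‖ = 1)
    (hu2 : ∀ y ∈ H + closedBall (0 : V) rho, inner ℝ u y ≤ inner ℝ u x)
    (hv2 : ∀ y ∈ H + closedBall (0 : V) rho, inner ℝ v y ≤ inner ℝ v x) : u = v := by
  obtain ⟨p, hp, w, hw, rfl⟩ := hx
  rw [mem_closedBall_zero_iff] at hw
  have key : ∀ t : V, ‖t‖ = 1 →
      (∀ y ∈ H + closedBall (0 : V) rho, inner ℝ t y ≤ inner ℝ t (p + w)) → w = rho • t := by
    intro t ht h
    have h1 := h (p + rho • t) ⟨p, hp, rho • t, by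
      rw [mem_closedBall_zero_iff, norm_smul, ht, mul_one, Real.norm_of_nonneg hr.le], rfl⟩
    rw [inner_add_right, inner_add_right, inner_smul_right, real_inner_self_eq_norm_sq, ht] at h1
    have h2 : rho ≤ inner ℝ t w := by linarith
    have h3 : ‖w - rho • t‖ ^ 2 ≤ 0 := by
      rw [@norm_sub_sq_real, norm_smul, ht, mul_one, inner_smul_right, Real.norm_of_nonneg hr.le,
        real_inner_comm]
      have h4 : ‖w‖ ^ 2 ≤ rho ^ 2 := pow_le_pow_left₀ (norm_nonneg _) hw 2
      nlinarith
    have h5 : ‖w - rho • t‖ = 0 := by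
      have := sq_nonneg ‖w - rho • t‖
      exact pow_eq_zero_iff (two_ne_zero) |>.1 (le_antisymm h3 this)
    exact sub_eq_zero.1 (norm_eq_zero.1 h5)
  have h1 := key u hu hu2
  have h2 := key v hv hv2
  rw [h1] at h2
  exact smul_right_injective V hr.ne' h2

/-- A point of a set `K` contained in a filled ellipse and lying on the ellipse is not interior. -/
theorem not_interior (K : Set V) (A B P : V) (sig : ℝ) (hAP : A ≠ P)
    (hK : ∀ x ∈ K, dist x A + dist x B ≤ sig) (hP : dist P A + dist P B = sig)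
    (hA : dist A B < sig) : P ∉ interior K := by
  intro hPi
  rw [mem_interior_iff_mem_nhds, Metric.mem_nhds_iff] at hPi
  obtain ⟨e, he, hball⟩ := hPi
  have hd : 0 < ‖P - A‖ := norm_pos_iff.2 (sub_ne_zero.2 hAP.symm)
  set t : ℝ := e / (2 * ‖P - A‖) with ht
  have htp : 0 < t := by positivity
  set y : V := P + t • (P - A) with hy
  have hyK : y ∈ K := by
    apply hball
    rw [mem_ball, dist_eq_norm, hy, add_sub_cancel_left, norm_smul, Real.norm_of_nonneg htp.le, ht]
    field_simp
    linarith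
  have h1 := hK y hyK
  -- P is a convex combination of A and y
  have hcomb : P = (t / (1 + t)) • A + (1 / (1 + t)) • y := by
    rw [hy, smul_add, smul_smul, smul_sub]
    have e1 : (1 / (1 + t) * t) = t / (1 + t) := by ring
    rw [e1]
    have e2 : (t / (1 + t)) • A + ((1 / (1 + t)) • P + ((t / (1 + t)) • P - (t / (1 + t)) • A))
        = (1 / (1 + t)) • P + (t / (1 + t)) • P := by abel
    rw [e2, ← add_smul]
    have e3 : 1 / (1 + t) + t / (1 + t) = 1 := by field_simp
    rw [e3, one_smul]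
  have hc1 : ConvexOn ℝ univ (fun x : V => dist x A) := convexOn_univ_dist A
  have hc2 : ConvexOn ℝ univ (fun x : V => dist x B) := convexOn_univ_dist B
  have ht1 : 0 ≤ t / (1 + t) := by positivity
  have ht2 : 0 ≤ 1 / (1 + t) := by positivity
  have ht3 : t / (1 + t) + 1 / (1 + t) = 1 := by field_simp; ring
  have h2 := (hc1.add hc2).2 (mem_univ A) (mem_univ y) ht1 ht2 ht3
  rw [← hcomb] at h2
  simp only [Pi.add_apply, dist_self, zero_add, smul_eq_mul] at h2
  rw [hP] at h2
  have h3 : t / (1 + t) * dist A B < t / (1 + t) * sig :=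
    mul_lt_mul_of_pos_left hA (by positivity)
  have h4 : 1 / (1 + t) * (dist y A + dist y B) ≤ 1 / (1 + t) * sig :=
    mul_le_mul_of_nonneg_left h1 (by positivity)
  have h5 : t / (1 + t) * sig + 1 / (1 + t) * sig = sig := by field_simp; ring
  linarith

end Pool.Agent.V11196.TP
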