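import Mathlib

/-!
# Iterated perimeter-maximising triangles : definitions
-/

namespace Pool.Agent.V11196.TP

open Filter Topology

/-- The Euclidean plane. -/
abbrev Plane : Type := EuclideanSpace ℝ (Fin 2)

/-- The perimeter of the triangle `XYZ`. -/
noncomputable def perim (X Y Z : Plane) : ℝ := dist X Y + dist Y Z + dist Z X

/-- `C` is a differentiable closed convex curve: the boundary of a compact convex set `K` with
nonempty interior, having at each of its points `x` exactly one supporting line (given by exactly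
one outer unit normal `u`). -/
def IsDiffConvexCurve (C : Set Plane) : Prop :=
  ∃ K : Set Plane, IsCompact K ∧ Convex ℝ K ∧ (interior K).Nonempty ∧ C = frontier K ∧
    ∀ x ∈ C, ∃! u : Plane, ‖u‖ = 1 ∧ ∀ y ∈ K, inner ℝ u y ≤ inner ℝ u x

/-- `(X i, Y i, Z i)` is a sequence of triangles produced by the iteration on `C`: start from a
nondegenerate inscribed triangle; keep `X i, Y i` and choose a perimeter-maximising `Z (i + 1)` on
`C`; then keep `X i, Z (i + 1)` and choose a perimeter-maximising `Y (i + 1)`; then keep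
`Y (i + 1), Z (i + 1)` and choose a perimeter-maximising `X (i + 1)`. -/
structure IsIteration (C : Set Plane) (X Y Z : ℕ → Plane) : Prop where
  start : X 0 ∈ C ∧ Y 0 ∈ C ∧ Z 0 ∈ C ∧ AffineIndependent ℝ ![X 0, Y 0, Z 0]
  stepZ : ∀ i, Z (i + 1) ∈ C ∧ ∀ W ∈ C, perim (X i) (Y i) W ≤ perim (X i) (Y i) (Z (i + 1))
  stepY : ∀ i, Y (i + 1) ∈ C ∧
    ∀ W ∈ C, perim (X i) W (Z (i + 1)) ≤ perim (X i) (Y (i + 1)) (Z (i + 1))
  stepX : ∀ i, X (i + 1) ∈ C ∧
    ∀ W ∈ C, perim W (Y (i + 1)) (Z (i + 1)) ≤ perim (X (i + 1)) (Y (i + 1)) (Z (i + 1))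

/-- A sequence of points converges. -/
def Converges (X : ℕ → Plane) : Prop := ∃ x, Tendsto X atTop (𝓝 x)

end Pool.Agent.V11196.TP
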