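import Pool.Agent.V11196.TP.Conv

/-!
# The six points of the periodic sequence
-/

namespace Pool.Agent.V11196.TP

open Filter Topology Set Metric Pointwise

/-- `√3`. -/
noncomputable def s : ℝ := √3

theorem s_sq : s * s = 3 := Real.mul_self_sqrt (by norm_num)

theorem s_pos : 0 < s := Real.sqrt_pos.2 (by norm_num)

theorem s_gt : (17 / 10 : ℝ) < s := by
  have := s_sq; have := s_pos; nlinarith

theorem s_lt : s < (18 / 10 : ℝ) := by
  have := s_sq; have := s_pos; nlinarith

/-- first coordinates -/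
noncomputable def px : Fin 6 → ℝ :=
  ![24, -12 + 5 * s, -12 + 5 * s, 24, -12 - 5 * s, -12 - 5 * s]

/-- second coordinates -/
noncomputable def py : Fin 6 → ℝ :=
  ![-10, -12 * s - 5, 12 * s + 5, 10, 5 - 12 * s, 12 * s - 5]

/-- first coordinates of the normals -/
noncomputable def mx : Fin 6 → ℝ :=
  ![-5, 5 / 2 - s / 2, 5 / 2 - s / 2, -5, 5 / 2 + s / 2, 5 / 2 + s / 2]

/-- second coordinates of the normals -/
noncomputable def my : Fin 6 → ℝ :=
  ![1, 5 * s / 2 + 1 / 2, -5 * s / 2 - 1 / 2, -1, 5 * s / 2 - 1 / 2, -5 * s / 2 + 1 / 2]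

/-- The six points. -/
noncomputable def P (k : Fin 6) : Plane := !₂[px k, py k]

/-- The six inner normals. -/
noncomputable def m (k : Fin 6) : Plane := !₂[mx k, my k]

/-- lengths of the consecutive sides -/
noncomputable def c : Fin 6 → ℝ :=
  ![24 * s - 10, 24 * s + 10, 24 * s - 10, 24 * s + 10, 24 * s - 10, 24 * s + 10]

/-- inverses of the lengths -/
noncomputable def ci : Fin 6 → ℝ :=
  ![(12 * s + 5) / 814, (12 * s - 5) / 814, (12 * s + 5) / 814, (12 * s - 5) / 814,
    (12 * s + 5) / 814, (12 * s - 5) / 814]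

/-- the multipliers -/
noncomputable def lam : Fin 6 → ℝ :=
  ![(5 * s - 1) / 26, (5 * s + 1) / 26, (5 * s - 1) / 26, (5 * s + 1) / 26, (5 * s - 1) / 26,
    (5 * s + 1) / 26]

theorem dist_pt (a b c d r : ℝ) (hr : 0 ≤ r) (h : (a - c) ^ 2 + (b - d) ^ 2 = r ^ 2) :
    dist (!₂[a, b] : Plane) !₂[c, d] = r := by
  rw [EuclideanSpace.dist_eq, Fin.sum_univ_two]
  simp only [Real.dist_eq, sq_abs]
  simp only [Matrix.cons_val_zero, Matrix.cons_val_one]
  rw [h]
  exact Real.sqrt_sq hr

theorem norm_pt (a b r : ℝ) (hr : 0 ≤ r) (h : a ^ 2 + b ^ 2 = r ^ 2) :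
    ‖(!₂[a, b] : Plane)‖ = r := by
  rw [EuclideanSpace.norm_eq, Fin.sum_univ_two]
  simp only [Real.norm_eq_abs, sq_abs]
  simp only [Matrix.cons_val_zero, Matrix.cons_val_one]
  rw [h]
  exact Real.sqrt_sq hr

theorem c_pos (k : Fin 6) : 30 < c k := by
  have := s_gt
  fin_cases k <;> simp [c] <;> linarith

theorem c_le (k : Fin 6) : c k ≤ c (k + 1) + 20 := by
  fin_cases k <;> simp [c] <;> linarith

theorem c_even (k : Fin 6) : c (k + 5) = c (k + 1) := by
  fin_cases k <;> simp [c]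

theorem ci_mul (k : Fin 6) : ci k * c k = 1 := by
  have := s_sq
  fin_cases k <;> simp [c, ci] <;> nlinarith

theorem ci_lt (k : Fin 6) : ci k < 1 / 30 := by
  have := s_lt
  fin_cases k <;> simp [ci] <;> linarith

theorem lam_gt (k : Fin 6) : 1 / 4 < lam k := by
  have := s_gt
  fin_cases k <;> simp [lam] <;> linarith

theorem dist1 (k : Fin 6) : dist (P k) (P (k + 1)) = c k := by
  have := s_sq
  refine dist_pt _ _ _ _ _ (by linarith [c_pos k]) ?_
  fin_cases k <;> simp [px, py, c] <;> nlinarith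

theorem dist2 (k : Fin 6) : dist (P k) (P (k + 2)) = 26 * s := by
  have := s_sq
  refine dist_pt _ _ _ _ _ (by linarith [s_pos]) ?_
  fin_cases k <;> simp [px, py] <;> nlinarith

theorem dist3 (k : Fin 6) : dist (P k) (P (k + 3)) = 20 := by
  have := s_sq
  refine dist_pt _ _ _ _ _ (by norm_num) ?_
  fin_cases k <;> simp [px, py] <;> nlinarith

theorem norm_m (k : Fin 6) : ‖m k‖ = √26 := by
  have := s_sq
  refine norm_pt _ _ _ (Real.sqrt_nonneg _) ?_
  rw [Real.sq_sqrt (by norm_num)]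
  fin_cases k <;> simp [mx, my] <;> nlinarith

/-- Tangency identity at `P (k + 2)`. -/
theorem tan1 (k : Fin 6) :
    ci (k + 1) • (P (k + 1) - P (k + 2)) + (s / 78) • (P k - P (k + 2)) =
      lam (k + 1) • m (k + 2) := by
  have := s_sq
  fin_cases k <;>
  · ext i
    fin_cases i <;> simp [P, m, px, py, mx, my, ci, lam] <;> nlinarith

/-- Tangency identity at `P (k + 5)`. -/
theorem tan2 (k : Fin 6) :
    ci (k + 5) • (P k - P (k + 5)) + (s / 78) • (P (k + 1) - P (k + 5)) =
      lam (k + 5) • m (k + 5) := by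
  have := s_sq
  fin_cases k <;>
  · ext i
    fin_cases i <;> simp [P, m, px, py, mx, my, ci, lam] <;> nlinarith

end Pool.Agent.V11196.TP
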